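import Pool.Agent.Lib.MP_5c318e_ag.L.Order
import Pool.Agent.Lib.MP_5c318e_ag.Lo.PoleA
import Pool.Agent.Lib.MP_5c318e_ag.RD.RMain

/-! Interpolation on a Riemann domain with logarithmic poles at finitely many disjoint centres. -/

set_option autoImplicit false
set_option linter.unusedSectionVars false

namespace Pool.Agent.Lib.MP_5c318e_ag.L

open MeasureTheory Set Filter Topology Complex Asymptotics
open Pool.Agent.Lib.MP_9ff3e7_ag

/-- an absolute constant -/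
noncomputable def C0 : ℝ := Lo.exists_profile.choose_spec.choose + 1

theorem one_lt_C0 : 1 < C0 := lt_add_of_pos_left _ Lo.exists_profile.choose_spec.choose_spec.1

theorem C0_pos : 0 < C0 := one_pos.trans one_lt_C0

theorem prof : ∃ g : ℝ → ℝ, (∀ s, 0 < s → ContDiffAt ℝ (⊤ : ℕ∞) g s) ∧
    (∀ s, g s ≤ 0) ∧ (∀ s, 1 / 2 ≤ s → g s = 0) ∧ (∀ s t, 0 < s → s ≤ t → g s ≤ g t) ∧
    (∀ s, 0 < s → g s ≤ Real.log s + 2) ∧
    ∀ {ι : Type} [Fintype ι] {A : (ι → ℂ) → ℝ} {x ξ : ι → ℂ},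
      ContDiffAt ℝ 2 A x → 0 < A x → 0 ≤ F.levi A x ξ →
      ‖F.dbar (fun y => (A y : ℂ)) x ξ‖ ^ 2 ≤ A x * F.levi A x ξ →
      -((C0 - 1) * F.levi A x ξ) ≤ F.levi (fun y => g (A y)) x ξ := by
  obtain ⟨-, h1, h2, h3, h4, h5, h6⟩ := Lo.exists_profile.choose_spec.choose_spec
  refine ⟨_, h1, h2, h3, h4, h5, fun {ι} _ {A x ξ} a1 a2 a3 a4 => ?_⟩
  have h := (h6 (n := 2) le_rfl a1 a2 a3 a4).1
  have a5 : ContDiffAt ℝ 2 (fun y => Lo.exists_profile.choose (A y)) x :=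
    ContDiffAt.comp (g := Lo.exists_profile.choose) x ((h1 _ a2).of_le (by norm_cast)) a1
  rw [F.levi_const_mul 2 a5] at h
  unfold C0
  linarith

section Glue

variable {S : Type} [TopologicalSpace S] {J : Type} [Fintype J] {E : Type} [AddCommMonoid E]
  {A T : J → Set S} {u : J → S → E}

theorem glue_at (hd : ∀ i j x, x ∈ A i → x ∈ A j → i = j) {j : J} {x : S} (hx : x ∈ A j) :
    ∑ i, (A i).indicator (u i) x = u j x := by
  rw [Finset.sum_eq_single j (fun i _ hi => indicator_of_notMem (fun h => hi (hd i j x h hx)) _)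
    (fun h => absurd (Finset.mem_univ j) h), indicator_of_mem hx]

theorem glue_zero {x : S} (hx : ∀ j, x ∉ A j) : ∑ i, (A i).indicator (u i) x = 0 :=
  Finset.sum_eq_zero fun i _ => indicator_of_notMem (hx i) _

theorem glue_ev (hT : ∀ j, IsOpen (T j)) (hA : ∀ j, IsClosed (A j)) (hs : ∀ j, A j ⊆ T j)
    (hd : ∀ i j x, x ∈ A i → x ∈ A j → i = j) (hu : ∀ j, ∀ y ∈ T j, y ∉ A j → u j y = 0)
    {j : J} {x : S} (hx : x ∈ A j) : (fun y => ∑ i, (A i).indicator (u i) y) =ᶠ[𝓝 x] u j := by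
  have h1 : ∀ᶠ y in 𝓝 x, ∀ i, i ≠ j → y ∉ A i := eventually_all.2 fun i => by
    by_cases h : i = j
    · exact Eventually.of_forall fun _ h' => absurd h h'
    · filter_upwards [(hA i).isOpen_compl.mem_nhds fun h' => h (hd i j x h' hx)] with y hy _
      exact hy
  filter_upwards [h1, (hT j).mem_nhds (hs j hx)] with y h2 h3
  rw [Finset.sum_eq_single j (fun i _ hi => indicator_of_notMem (h2 i hi) _)
    (fun h => absurd (Finset.mem_univ j) h)]
  by_cases h : y ∈ A j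
  · exact indicator_of_mem h _
  · rw [indicator_of_notMem h, hu j y h3 h]

theorem glue_ev0 (hA : ∀ j, IsClosed (A j)) {x : S} (hx : ∀ j, x ∉ A j) :
    (fun y => ∑ i, (A i).indicator (u i) y) =ᶠ[𝓝 x] fun _ => 0 := by
  filter_upwards [eventually_all.2 fun i => (hA i).isOpen_compl.mem_nhds (hx i)] with y hy
  exact glue_zero hy

end Glue

theorem inv_le_mul_inv {a b c : ℝ} (hc : 0 < c) (h : a ≤ c * b) :
    (ENNReal.ofReal b)⁻¹ ≤ ENNReal.ofReal c * (ENNReal.ofReal a)⁻¹ := by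
  have c0 : ENNReal.ofReal c ≠ 0 := (ENNReal.ofReal_pos.2 hc).ne'
  have h1 : (ENNReal.ofReal c * ENNReal.ofReal b)⁻¹ ≤ (ENNReal.ofReal a)⁻¹ :=
    ENNReal.inv_le_inv.2 (by rw [← ENNReal.ofReal_mul hc.le]; exact ENNReal.ofReal_le_ofReal h)
  rw [ENNReal.mul_inv (Or.inl c0) (Or.inl ENNReal.ofReal_ne_top)] at h1
  refine le_trans (le_of_eq ?_) (mul_le_mul_right h1 _)
  rw [← mul_assoc, ENNReal.mul_inv_cancel c0 ENNReal.ofReal_ne_top, one_mul]

variable {ι : Type} [Fintype ι] {S : Type} [TopologicalSpace S] [MeasurableSpace S] [BorelSpace S]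
  [T2Space S] [SigmaCompactSpace S]

/-- poles of order `N` at finitely many disjoint centres, singular weight `1/ω` -/
theorem interp (D : RD ι S) {s : S → ℝ} (hs : D.Exh s) {J κ : Type} [Fintype J] [Fintype κ]
    {T : J → Set S} (hT : ∀ j, IsOpen (T j)) {ζ : J → κ → S → ℂ}
    (hζ : ∀ j k, HolOn D (T j) (ζ j k)) (hA : ∀ j, IsClosed {x | x ∈ T j ∧ nq (ζ j) x ≤ 1})
    (hd : ∀ i j x, x ∈ T i → nq (ζ i) x ≤ 1 → x ∈ T j → nq (ζ j) x ≤ 1 → i = j)
    {f : J → S → ℂ} (hf : ∀ j, HolOn D (T j) (f j)) {N : ℕ} (hN : 1 ≤ N)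
    {φ : ℕ → S → ℝ} (hφ : ∀ k, D.Psh (φ k)) (ha : ∀ x, Antitone fun k => φ k x) {ω : S → ℝ}
    (hω : ∀ x, Tendsto (fun k => Real.exp (φ k x)) atTop (𝓝 (ω x)))
    (hl : ∀ k j, ∀ x ∈ T j, nq (ζ j) x ≤ 1 → ∀ ξ, C0 * N * dq D (ζ j) x ξ ≤ D.levi (φ k) x ξ)
    (hi : ∀ j, ∫⁻ x in {x | x ∈ T j ∧ nq (ζ j) x ≤ 1},
      ENNReal.ofReal (‖f j x‖ ^ 2) * (ENNReal.ofReal (ω x))⁻¹ ∂D.μ < ⊤) :
    ∃ F : S → ℂ, D.Hol F ∧
      ∫⁻ x, ENNReal.ofReal (‖F x‖ ^ 2) * (ENNReal.ofReal (ω x))⁻¹ ∂D.μ < ⊤ ∧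
      ∀ j, ∫⁻ x in {x | x ∈ T j ∧ nq (ζ j) x < 1 / 2}, ENNReal.ofReal (‖F x - f j x‖ ^ 2) *
        (ENNReal.ofReal (ω x * nq (ζ j) x ^ N))⁻¹ ∂D.μ < ⊤ := by
  obtain ⟨g, g1, g2, g3, g4, g5, g6⟩ := prof
  obtain ⟨c, c1, -, c2, c3, -, c4, c5, c6, M, c7⟩ := F.exists_step (a := 1 / 2) (b := 1) (by norm_num)
  obtain ⟨A, hAe⟩ : ∃ A : J → Set S, A = fun j => {x | x ∈ T j ∧ nq (ζ j) x ≤ 1} := ⟨_, rfl⟩
  have mA : ∀ j x, x ∈ A j ↔ x ∈ T j ∧ nq (ζ j) x ≤ 1 := fun j x => by rw [hAe]; rfl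
  have cA : ∀ j, IsClosed (A j) := by rw [hAe]; exact hA
  have sA : ∀ j, A j ⊆ T j := fun j x hx => ((mA j x).1 hx).1
  have dA : ∀ i j x, x ∈ A i → x ∈ A j → i = j := fun i j x h1 h2 =>
    hd i j x ((mA i x).1 h1).1 ((mA i x).1 h1).2 ((mA j x).1 h2).1 ((mA j x).1 h2).2
  have out : ∀ j, ∀ y ∈ T j, y ∉ A j → 1 < nq (ζ j) y := fun j y h1 h2 =>
    lt_of_not_ge fun h => h2 ((mA j y).2 ⟨h1, h⟩)
  have cases : ∀ x, (∃ j, x ∈ A j) ∨ ∀ j, x ∉ A j := fun x => (em _).imp id not_exists.1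
  have N1 : (1 : ℝ) ≤ N := by exact_mod_cast hN
  have δ0 : ∀ k : ℕ, (0 : ℝ) < 1 / (k + 1) := fun k => by positivity
  have pos : ∀ j x (k : ℕ), 0 < nq (ζ j) x + 1 / (k + 1) := fun j x k =>
    add_pos_of_nonneg_of_pos (nq_nonneg _ _) (δ0 k)
  -- the pole
  obtain ⟨P, hP⟩ : ∃ P : ℕ → S → ℝ, P = fun (k : ℕ) y => ∑ i, (A i).indicator
    (fun y => N * g (nq (ζ i) y + 1 / (k + 1))) y := ⟨_, rfl⟩
  have Pat : ∀ k j, ∀ x ∈ A j, P k x = N * g (nq (ζ j) x + 1 / (k + 1)) := fun k j x hx => by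
    rw [hP]; exact glue_at dA hx
  have P0 : ∀ k x, (∀ j, x ∉ A j) → P k x = 0 := fun k x hx => by rw [hP]; exact glue_zero hx
  have Pev : ∀ k j, ∀ x ∈ A j, P k =ᶠ[𝓝 x] fun y => N * g (nq (ζ j) y + 1 / (k + 1)) :=
    fun k j x hx => by
      rw [hP]
      exact glue_ev hT cA sA dA (fun j y h1 h2 => by
        rw [g3 _ (by linarith [out j y h1 h2, δ0 k]), mul_zero]) hx
  have Pev0 : ∀ k x, (∀ j, x ∉ A j) → P k =ᶠ[𝓝 x] fun _ => 0 := fun k x hx => by
    rw [hP]; exact glue_ev0 cA hx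
  have gsm : ∀ (k : ℕ) j, ∀ x ∈ A j, ContDiffAt ℝ (⊤ : ℕ∞)
      (fun z => g (nq (ζ j) (D.sec x z) + 1 / (k + 1))) (D.π x) := fun k j x hx =>
    ContDiffAt.comp (g := g) (D.π x) (g1 _ (pos j _ k))
      ((nq_smAt (hζ j) (hT j) (sA j hx)).add contDiffAt_const)
  have Psm : ∀ k, D.Sm (P k) := fun k x => by
    rcases cases x with ⟨j, hx⟩ | hx
    · exact (contDiffAt_const.mul (gsm k j x hx)).congr_of_eventuallyEq (RD.ev_sec (Pev k j x hx))
    · exact contDiffAt_const.congr_of_eventuallyEq (RD.ev_sec (Pev0 k x hx))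
  have Plev : ∀ k j, ∀ x ∈ A j, ∀ ξ, -((C0 - 1) * N * dq D (ζ j) x ξ) ≤ D.levi (P k) x ξ :=
    fun k j x hx ξ => by
      have a1 : ContDiffAt ℝ 2 (fun z => nq (ζ j) (D.sec x z)) (D.π x) :=
        nq_smAt (hζ j) (hT j) (sA j hx)
      have a2 : F.levi (fun z => nq (ζ j) (D.sec x z) + 1 / (k + 1)) (D.π x) ξ = dq D (ζ j) x ξ := by
        rw [F.levi_add_const a1, levi_nq (hζ j) (hT j) (sA j hx)]
      have a3 := g6 (A := fun z => nq (ζ j) (D.sec x z) + 1 / (k + 1)) (x := D.π x) (ξ := ξ)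
        (a1.add contDiffAt_const) (pos j _ k) (by rw [a2]; exact dq_nonneg _ _ _ _) (by
          simp only [ofReal_add]
          rw [a2, F.dbar_add (F.diffAt_ofReal (a1.differentiableAt (by norm_num)))
            (differentiableAt_const _), F.dbar_const, add_zero, RD.sec_self]
          refine (dbar_nq (hζ j) (sA j hx) ξ).trans ?_
          exact mul_le_mul_of_nonneg_right (by linarith [δ0 k]) (dq_nonneg _ _ _ _))
      rw [a2] at a3
      rw [RD.levi_congr (Pev k j x hx)]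
      unfold RD.levi
      rw [F.levi_const_mul _ ((gsm k j x hx).of_le (by norm_cast))]
      nlinarith
  have Plev0 : ∀ k x, (∀ j, x ∉ A j) → ∀ ξ, D.levi (P k) x ξ = 0 := fun k x hx ξ => by
    rw [RD.levi_congr (Pev0 k x hx)]
    exact F.levi_const _ _ _
  have Panti : ∀ x, Antitone fun k => P k x := fun x k l hkl => by
    rcases cases x with ⟨j, hx⟩ | hx
    · simp only [Pat _ j x hx]
      refine mul_le_mul_of_nonneg_left (g4 _ _ (pos j x l) ?_) (by positivity)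
      have : (k : ℝ) ≤ l := by exact_mod_cast hkl
      gcongr
    · simp only [P0 _ x hx, le_refl]
  have Pneg : ∀ k x, P k x ≤ 0 := fun k x => by
    rcases cases x with ⟨j, hx⟩ | hx
    · rw [Pat k j x hx]; exact mul_nonpos_of_nonneg_of_nonpos (by positivity) (g2 _)
    · rw [P0 k x hx]
  have ladd : ∀ k x ξ, D.levi (fun y => φ k y + P k y) x ξ = D.levi (φ k) x ξ + D.levi (P k) x ξ :=
    fun k x ξ => F.levi_add ((hφ k).1.two x) ((Psm k).two x) ξ
  have marg : ∀ k j, ∀ x ∈ A j, ∀ ξ, dq D (ζ j) x ξ ≤ D.levi (fun y => φ k y + P k y) x ξ :=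
    fun k j x hx ξ => by
      rw [ladd]
      have a1 := hl k j x (sA j hx) ((mA j x).1 hx).2 ξ
      have a2 := Plev k j x hx ξ
      nlinarith [dq_nonneg D (ζ j) x ξ]
  have psh : ∀ k, D.Psh fun y => φ k y + P k y := fun k => ⟨(hφ k).1.add (Psm k), fun x ξ => by
    rcases cases x with ⟨j, hx⟩ | hx
    · exact (dq_nonneg _ _ _ _).trans (marg k j x hx ξ)
    · rw [ladd, Plev0 k x hx, add_zero]; exact (hφ k).2 x ξ⟩
  obtain ⟨m, hm⟩ : ∃ m : S → ℝ, ∀ x, Tendsto (fun k => Real.exp (P k x)) atTop (𝓝 (m x)) :=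
    ⟨fun x => ⨅ k, Real.exp (P k x), fun x => tendsto_atTop_ciInf
      (Real.exp_monotone.comp_antitone (Panti x))
      ⟨0, by rintro _ ⟨k, rfl⟩; exact (Real.exp_pos _).le⟩⟩
  have m1 : ∀ x, m x ≤ 1 := fun x => le_of_tendsto' (hm x) fun k => Real.exp_le_one_iff.2 (Pneg k x)
  have m2 : ∀ j, ∀ x ∈ A j, m x ≤ Real.exp 2 ^ N * nq (ζ j) x ^ N := fun j x hx => by
    have t1 : Tendsto (fun k : ℕ => Real.exp 2 ^ N * (nq (ζ j) x + 1 / (k + 1)) ^ N) atTop
        (𝓝 (Real.exp 2 ^ N * (nq (ζ j) x + 0) ^ N)) :=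
      ((tendsto_one_div_add_atTop_nhds_zero_nat.const_add _).pow N).const_mul _
    rw [add_zero] at t1
    refine le_of_tendsto_of_tendsto' (hm x) t1 fun k => ?_
    rw [Pat k j x hx, Real.exp_nat_mul, ← mul_pow]
    refine pow_le_pow_left₀ (Real.exp_pos _).le ?_ _
    refine (Real.exp_le_exp.2 (g5 _ (pos j x k))).trans_eq ?_
    rw [Real.exp_add, Real.exp_log (pos j x k), mul_comm]
  have ω0 : ∀ x, 0 ≤ ω x := fun x => ge_of_tendsto' (hω x) fun k => (Real.exp_pos _).le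
  have ω1 : ∀ k x, ω x ≤ Real.exp (φ k x) := fun k x =>
    (Real.exp_monotone.comp_antitone (ha x)).le_of_tendsto (hω x) k
  have ωm : Measurable ω := measurable_of_tendsto_metrizable
    (fun k => (hφ k).1.rexp.cont.measurable) (tendsto_pi_nhds.2 hω)
  -- the source
  obtain ⟨v, hv⟩ : ∃ v : S → ℂ, v = fun y => ∑ i, (A i).indicator
    (fun y => f i y * ((1 - c (nq (ζ i) y) : ℝ) : ℂ)) y := ⟨_, rfl⟩
  have vat : ∀ j, ∀ x ∈ A j, v x = f j x * ((1 - c (nq (ζ j) x) : ℝ) : ℂ) := fun j x hx => by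
    rw [hv]; exact glue_at dA hx
  have v0 : ∀ x, (∀ j, x ∉ A j) → v x = 0 := fun x hx => by rw [hv]; exact glue_zero hx
  have vev : ∀ j, ∀ x ∈ A j, v =ᶠ[𝓝 x] fun y => f j y * ((1 - c (nq (ζ j) y) : ℝ) : ℂ) :=
    fun j x hx => by
      rw [hv]
      exact glue_ev hT cA sA dA (fun j y h1 h2 => by
        rw [c3 _ (out j y h1 h2).le, sub_self, ofReal_zero, mul_zero]) hx
  have vev0 : ∀ x, (∀ j, x ∉ A j) → v =ᶠ[𝓝 x] fun _ => 0 := fun x hx => by
    rw [hv]; exact glue_ev0 cA hx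
  have csm : ∀ j, ∀ x ∈ A j, ContDiffAt ℝ (⊤ : ℕ∞)
      (fun z => 1 - c (nq (ζ j) (D.sec x z))) (D.π x) := fun j x hx =>
    contDiffAt_const.sub (ContDiffAt.comp (g := c) (D.π x) c1.contDiffAt
      (nq_smAt (hζ j) (hT j) (sA j hx)))
  have vsm : D.Sm v := fun x => by
    rcases cases x with ⟨j, hx⟩ | hx
    · refine ContDiffAt.congr_of_eventuallyEq ?_ (RD.ev_sec (vev j x hx))
      exact (((hf j).ana (hT j) (sA j hx)).contDiffAt.restrict_scalars ℝ).mul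
        (ofRealCLM.contDiff.contDiffAt.comp (D.π x) (csm j x hx))
    · exact contDiffAt_const.congr_of_eventuallyEq (RD.ev_sec (vev0 x hx))
  obtain ⟨h, hh⟩ : ∃ h : S → ℝ, h = fun y => ∑ i, (A i).indicator
    (fun y => ‖f i y‖ ^ 2 * deriv c (nq (ζ i) y) ^ 2) y := ⟨_, rfl⟩
  have hat : ∀ j, ∀ x ∈ A j, h x = ‖f j x‖ ^ 2 * deriv c (nq (ζ j) x) ^ 2 := fun j x hx => by
    rw [hh]; exact glue_at dA hx
  have h0 : ∀ x, (∀ j, x ∉ A j) → h x = 0 := fun x hx => by rw [hh]; exact glue_zero hx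
  have fc : ∀ j, ContinuousOn (fun y => ‖f j y‖ ^ 2) (A j) := fun j =>
    ((hf j).contOn.mono (sA j)).norm.pow 2
  have hme : Measurable h := by
    rw [hh]
    refine Finset.measurable_fun_sum _ fun j _ => ?_
    classical
    exact ContinuousOn.measurable_piecewise ((fc j).mul
      (((c1.continuous_deriv (by norm_cast)).comp_continuousOn fun x hx =>
        (nq_contAt (hζ j) (sA j hx)).continuousWithinAt).pow 2)) continuousOn_const
      (cA j).measurableSet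
  have hpos : ∀ x, 0 ≤ h x := fun x => by
    rcases cases x with ⟨j, hx⟩ | hx
    · rw [hat j x hx]; positivity
    · rw [h0 x hx]
  have hb : ∀ k x ξ, ‖D.dbar v x ξ‖ ^ 2 ≤ h x * D.levi (fun y => φ k y + P k y) x ξ :=
    fun k x ξ => by
      rcases cases x with ⟨j, hx⟩ | hx
      · have a1 : DifferentiableAt ℝ (fun z => nq (ζ j) (D.sec x z)) (D.π x) :=
          (nq_smAt (hζ j) (hT j) (sA j hx) (m := 1)).differentiableAt (by norm_num)
        have dc : Differentiable ℝ c := c1.differentiable (by simp)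
        rw [RD.dbar_congr (vev j x hx), hat j x hx]
        unfold RD.dbar
        rw [F.dbar_holo_mul (hf j x (sA j hx))
          (F.diffAt_ofReal ((csm j x hx).differentiableAt (by simp))),
          F.dbar_comp_real (χ := fun t => 1 - c t) (φ := fun z => nq (ζ j) (D.sec x z))
            ((dc _).const_sub 1) a1, deriv_const_sub, RD.sec_self, norm_mul, norm_mul, mul_pow,
          mul_pow, norm_real, Real.norm_eq_abs, sq_abs, neg_sq, mul_assoc]
        refine mul_le_mul_of_nonneg_left (mul_le_mul_of_nonneg_left ?_ (sq_nonneg _)) (sq_nonneg _)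
        refine (dbar_nq (hζ j) (sA j hx) ξ).trans (le_trans ?_ (marg k j x hx ξ))
        exact mul_le_of_le_one_left (dq_nonneg _ _ _ _) ((mA j x).1 hx).2
      · rw [RD.dbar_congr (vev0 x hx), h0 x hx, zero_mul]
        unfold RD.dbar
        rw [F.dbar_const]
        simp
  obtain ⟨q, hq⟩ : ∃ q : S → ENNReal, q = fun y => ∑ i, (A i).indicator
    (fun y => ENNReal.ofReal (‖f i y‖ ^ 2) * (ENNReal.ofReal (ω y))⁻¹) y := ⟨_, rfl⟩
  have qat : ∀ j, ∀ x ∈ A j, q x = ENNReal.ofReal (‖f j x‖ ^ 2) * (ENNReal.ofReal (ω x))⁻¹ :=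
    fun j x hx => by rw [hq]; exact glue_at dA hx
  have qm : ∀ j, Measurable ((A j).indicator
      fun y => ENNReal.ofReal (‖f j y‖ ^ 2) * (ENNReal.ofReal (ω y))⁻¹) := fun j => by
    classical
    have a1 : Measurable ((A j).indicator fun y => ENNReal.ofReal (‖f j y‖ ^ 2)) :=
      ContinuousOn.measurable_piecewise (ENNReal.continuous_ofReal.comp_continuousOn (fc j))
        continuousOn_const (cA j).measurableSet
    convert a1.mul ωm.ennreal_ofReal.inv using 1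
    funext y
    exact indicator_mul_left _ _ _
  have qme : Measurable q := by rw [hq]; exact Finset.measurable_fun_sum _ fun j _ => qm j
  have qi : ∫⁻ x, q x ∂D.μ < ⊤ := by
    rw [hq, lintegral_finsetSum _ fun j _ => qm j]
    refine ENNReal.sum_lt_top.2 fun j _ => ?_
    rw [lintegral_indicator (cA j).measurableSet, hAe]
    exact hi j
  obtain ⟨G, hG, hGi⟩ := D.hormander_lim hs psh
    (fun k x => add_le_add (ha x (Nat.zero_le k)) (Panti x (Nat.zero_le k)))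
    (w := fun x => ω x * m x) (fun x => by simpa only [Real.exp_add] using (hω x).mul (hm x))
    vsm (h := fun _ => h) (fun _ => hme) (fun _ => hpos) hb
    (C := ENNReal.ofReal (M ^ 2) * ∫⁻ x, q x ∂D.μ) (fun k => by
      rw [← lintegral_const_mul' _ _ ENNReal.ofReal_ne_top]
      refine lintegral_mono fun x => ?_
      rcases cases x with ⟨j, hx⟩ | hx
      · rw [hat j x hx, qat j x hx]
        rcases lt_or_ge (nq (ζ j) x) (1 / 2) with h1 | h1
        · simp [c6 _ (Or.inl h1)]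
        · rw [Pat k j x hx, g3 _ (by linarith [δ0 k]), mul_zero, add_zero,
            ENNReal.ofReal_mul (by positivity), ENNReal.ofReal_mul (by positivity), ← mul_assoc,
            mul_comm (ENNReal.ofReal (M ^ 2)), Real.exp_neg,
            ENNReal.ofReal_inv_of_pos (Real.exp_pos _)]
          refine mul_le_mul' (mul_le_mul_right (ENNReal.ofReal_le_ofReal ?_) _)
            (ENNReal.inv_le_inv.2 (ENNReal.ofReal_le_ofReal (ω1 k x)))
          exact sq_le_sq.2 ((c7 _).trans (le_abs_self M))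
      · simp [h0 x hx])
    (ENNReal.mul_ne_top ENNReal.ofReal_ne_top qi.ne)
  have hGi' := hGi.trans_lt (ENNReal.mul_lt_top ENNReal.ofReal_lt_top qi)
  refine ⟨G, hG, ?_, fun j => ?_⟩
  · have a1 : ∀ x, ENNReal.ofReal (‖G x‖ ^ 2) * (ENNReal.ofReal (ω x))⁻¹ ≤
        2 * (ENNReal.ofReal (‖G x - v x‖ ^ 2) * (ENNReal.ofReal (ω x * m x))⁻¹) + 2 * q x :=
      fun x => by
        have b1 : ‖G x‖ ^ 2 ≤ 2 * ‖G x - v x‖ ^ 2 + 2 * ‖v x‖ ^ 2 := by
          have := norm_le_norm_sub_add (G x) (v x)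
          nlinarith [norm_nonneg (G x), sq_nonneg (‖G x - v x‖ - ‖v x‖)]
        have b2 : ENNReal.ofReal (‖v x‖ ^ 2) * (ENNReal.ofReal (ω x))⁻¹ ≤ q x := by
          rcases cases x with ⟨j, hx⟩ | hx
          · rw [qat j x hx, vat j x hx]
            refine mul_le_mul_left (ENNReal.ofReal_le_ofReal ?_) _
            refine pow_le_pow_left₀ (norm_nonneg _) ?_ 2
            rw [norm_mul, norm_real, Real.norm_of_nonneg (sub_nonneg.2 (c5 _))]
            exact mul_le_of_le_one_right (norm_nonneg _) (by linarith [c4 (nq (ζ j) x)])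
          · simp [v0 x hx]
        refine (mul_le_mul_left (ENNReal.ofReal_le_ofReal b1) _).trans ?_
        rw [ENNReal.ofReal_add (by positivity) (by positivity), ENNReal.ofReal_mul two_pos.le,
          ENNReal.ofReal_mul two_pos.le, ENNReal.ofReal_ofNat, add_mul, mul_assoc, mul_assoc]
        refine add_le_add (mul_le_mul_right (mul_le_mul_right (ENNReal.inv_le_inv.2
          (ENNReal.ofReal_le_ofReal (mul_le_of_le_one_right (ω0 x) (m1 x)))) _) _)
          (mul_le_mul_right b2 _)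
    refine (lintegral_mono a1).trans_lt ?_
    rw [lintegral_add_right _ (qme.const_mul 2), lintegral_const_mul' _ _ ENNReal.ofNat_ne_top,
      lintegral_const_mul' _ _ ENNReal.ofNat_ne_top]
    exact ENNReal.add_lt_top.2 ⟨ENNReal.mul_lt_top ENNReal.ofNat_lt_top hGi',
      ENNReal.mul_lt_top ENNReal.ofNat_lt_top qi⟩
  · have ho : IsOpen {x | x ∈ T j ∧ nq (ζ j) x < 1 / 2} :=
      ContinuousOn.isOpen_inter_preimage (fun x hx => (nq_contAt (hζ j) hx).continuousWithinAt)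
        (hT j) isOpen_Iio
    refine lt_of_le_of_lt (le_trans (setLIntegral_mono' ho.measurableSet
      (g := fun x => ENNReal.ofReal (Real.exp 2 ^ N) * (ENNReal.ofReal (‖G x - v x‖ ^ 2) *
        (ENNReal.ofReal (ω x * m x))⁻¹)) fun x hx => ?_) (setLIntegral_le_lintegral _ _)) ?_
    · have hx' : x ∈ A j := (mA j x).2 ⟨hx.1, by linarith [hx.2]⟩
      rw [vat j x hx', c2 _ hx.2.le, sub_zero, ofReal_one, mul_one, mul_left_comm]
      refine mul_le_mul_right (inv_le_mul_inv (by positivity) ?_) _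
      rw [mul_left_comm]
      exact mul_le_mul_of_nonneg_left (m2 j x hx') (ω0 x)
    · rw [lintegral_const_mul' _ _ ENNReal.ofReal_ne_top]
      exact ENNReal.mul_lt_top ENNReal.ofReal_lt_top hGi'

/-- one smooth weight; at every zero `y` of `ζ j` in `T j` the solution agrees with `f j` to order
`n` (`n = 1` value, `n = 2` value and first derivative) -/
theorem interp_jet (D : RD ι S) {s : S → ℝ} (hs : D.Exh s) {J κ : Type} [Fintype J] [Fintype κ]
    {T : J → Set S} (hT : ∀ j, IsOpen (T j)) {ζ : J → κ → S → ℂ}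
    (hζ : ∀ j k, HolOn D (T j) (ζ j k)) (hA : ∀ j, IsClosed {x | x ∈ T j ∧ nq (ζ j) x ≤ 1})
    (hd : ∀ i j x, x ∈ T i → nq (ζ i) x ≤ 1 → x ∈ T j → nq (ζ j) x ≤ 1 → i = j)
    {f : J → S → ℂ} (hf : ∀ j, HolOn D (T j) (f j)) {n : ℕ} (hn : 1 ≤ n)
    {Φ : S → ℝ} (hΦ : D.Psh Φ)
    (hl : ∀ j, ∀ x ∈ T j, nq (ζ j) x ≤ 1 → ∀ ξ,
      C0 * (Fintype.card ι + n) * dq D (ζ j) x ξ ≤ D.levi Φ x ξ)
    (hi : ∀ j, ∫⁻ x in {x | x ∈ T j ∧ nq (ζ j) x ≤ 1},
      ENNReal.ofReal (‖f j x‖ ^ 2 * Real.exp (-Φ x)) ∂D.μ < ⊤) :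
    ∃ F : S → ℂ, D.Hol F ∧ ∫⁻ x, ENNReal.ofReal (‖F x‖ ^ 2 * Real.exp (-Φ x)) ∂D.μ < ⊤ ∧
      ∀ j, ∀ y ∈ T j, (∀ k, ζ j k y = 0) → F y = f j y ∧
        ((fun z => F (D.sec y z) - f j (D.sec y z)) =O[𝓝 (D.π y)] fun z => ‖z - D.π y‖ ^ n) ∧
        (2 ≤ n → fderiv ℂ (fun z => F (D.sec y z)) (D.π y) =
          fderiv ℂ (fun z => f j (D.sec y z)) (D.π y)) := by
  have e : ∀ (a : ℂ) (x : S), ENNReal.ofReal (‖a‖ ^ 2 * Real.exp (-Φ x)) =
      ENNReal.ofReal (‖a‖ ^ 2) * (ENNReal.ofReal (Real.exp (Φ x)))⁻¹ := fun a x => by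
    rw [ENNReal.ofReal_mul (by positivity), Real.exp_neg,
      ENNReal.ofReal_inv_of_pos (Real.exp_pos _)]
  simp only [e] at hi ⊢
  obtain ⟨G, hG, h1, h2⟩ := interp D hs hT hζ hA hd hf (N := Fintype.card ι + n) (by omega)
    (φ := fun _ => Φ) (fun _ => hΦ) (fun _ => antitone_const) (ω := fun x => Real.exp (Φ x))
    (fun _ => tendsto_const_nhds) (fun _ => by exact_mod_cast hl) hi
  refine ⟨G, hG, h1, fun j y hy h0 => ?_⟩
  have hU : {x | x ∈ T j ∧ nq (ζ j) x < 1 / 2} ∈ 𝓝 y :=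
    inter_mem ((hT j).mem_nhds hy) ((nq_contAt (hζ j) hy).eventually_lt_const (by simp [nq, h0]))
  have ho := order D (hT j) (hζ j) ((holOn_of_hol hG).sub (hf j)) hy h0
    (hΦ.1.rexp.cont.continuousAt.eventually_le_const (lt_add_one _)) hU (h2 j)
  refine ⟨?_, ho, fun h => ?_⟩
  · have := zero_of_order hn ho
    rwa [RD.sec_self, sub_eq_zero] at this
  · have := (fderiv_of_order h ho).unique ((hG y).hasFDerivAt.sub (hf j y hy).hasFDerivAt)
    exact sub_eq_zero.1 this.symm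

end Pool.Agent.Lib.MP_5c318e_ag.L
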