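import Pool.Agent.Lib.MP_5c318e_ag.L.Interp

/-! The lower count: a grid of centres gives `c t^ν` independent square integrable holomorphic
functions. -/

set_option autoImplicit false
set_option linter.unusedSectionVars false

namespace Pool.Agent.Lib.MP_5c318e_ag.L

open MeasureTheory Set Filter Topology Complex Metric
open Pool.Agent.Lib.MP_9ff3e7_ag

theorem gauss_sep {a b c d : ℕ} (h : ‖((a : ℂ) + b * I) - (c + d * I)‖ < 1) : a = c ∧ b = d := by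
  have h1 := (abs_re_le_norm _).trans_lt h
  have h2 := (abs_im_le_norm _).trans_lt h
  simp only [sub_re, add_re, natCast_re, mul_re, I_re, mul_zero, natCast_im, I_im, mul_one,
    sub_self, add_zero, sub_im, add_im, mul_im, zero_add, abs_lt] at h1 h2
  have e : ∀ {u v : ℕ}, -1 < (u : ℝ) - v → (u : ℝ) - v < 1 → u = v := fun {u v} k1 k2 => by
    have k3 : (v : ℝ) < (u + 1 : ℕ) := by push_cast; linarith
    have k4 : (u : ℝ) < (v + 1 : ℕ) := by push_cast; linarith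
    have := Nat.cast_lt.1 k3
    have := Nat.cast_lt.1 k4
    omega
  exact ⟨e h1.1 h1.2, e h2.1 h2.2⟩

theorem sum_sq_tri {n : Type} [Fintype n] (u v w : n → ℂ) :
    ∑ i, ‖u i - w i‖ ^ 2 ≤ 2 * ∑ i, ‖u i - v i‖ ^ 2 + 2 * ∑ i, ‖v i - w i‖ ^ 2 := by
  rw [Finset.mul_sum, Finset.mul_sum, ← Finset.sum_add_distrib]
  refine Finset.sum_le_sum fun i _ => ?_
  have := norm_sub_le_norm_sub_add_norm_sub (u i) (v i) (w i)
  nlinarith [norm_nonneg (u i - w i), sq_nonneg (‖u i - v i‖ - ‖v i - w i‖)]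

variable {ι : Type} [Fintype ι] {S : Type} [TopologicalSpace S] [MeasurableSpace S]

/-- a holomorphic map with surjective derivative is open at the point -/
theorem open_at {D : RD ι S} {T : Set S} (hT : IsOpen T) {n : Type} [Fintype n] {s : n → S → ℂ}
    (hs : ∀ i, HolOn D T (s i)) {x0 : S} (hx : x0 ∈ T)
    (hon : Function.Surjective (fderiv ℂ (fun z i => s i (D.sec x0 z)) (D.π x0))) {W : Set S}
    (hW : W ∈ 𝓝 x0) : ∃ r > 0, ∀ v : n → ℂ, ‖v‖ ≤ r → ∃ y ∈ W, ∀ i, s i y = s i x0 + v i := by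
  have h1 : AnalyticAt ℂ (fun z i => s i (D.sec x0 z)) (D.π x0) :=
    analyticAt_pi_iff.2 fun i => (hs i).ana hT hx
  have h2 := h1.hasStrictFDerivAt.map_nhds_eq_of_surj (LinearMap.range_eq_top.2 hon)
  have h3 := image_mem_map (m := fun z i => s i (D.sec x0 z)) (D.tendsto_sec x0 hW)
  rw [h2] at h3
  obtain ⟨r, r0, hr⟩ := nhds_basis_closedBall.mem_iff.1 h3
  refine ⟨r, r0, fun v hv => ?_⟩
  obtain ⟨z, hz, e⟩ := hr (a := (fun i => s i (D.sec x0 (D.π x0))) + v)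
    (by rwa [add_mem_closedBall_iff_norm])
  exact ⟨_, hz, fun i => by simpa [RD.sec_self] using congrFun e i⟩

variable [BorelSpace S] [T2Space S] [SigmaCompactSpace S]

/-- at least `c t^ν` independent sections, `ν = card n` -/
theorem lower_count (D : RD ι S) {e : S → ℝ} (he : D.Exh e) {T : Set S} (hT : IsOpen T)
    {n κ : Type} [Fintype n] [Fintype κ] {s : n → S → ℂ} {b : κ → S → ℂ}
    (hs : ∀ i, HolOn D T (s i)) (hb : ∀ k, HolOn D T (b k)) {x0 : S} (hx : x0 ∈ T) {ρ : ℝ}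
    (hρ : 0 < ρ) {A : Set S}
    (hA : A = {x | x ∈ T ∧ ∑ i, ‖s i x - s i x0‖ ^ 2 + ∑ k, ‖b k x - b k x0‖ ^ 2 ≤ ρ})
    (hc : IsClosed A)
    (hon : Function.Surjective (fderiv ℂ (fun z i => s i (D.sec x0 z)) (D.π x0))) :
    ∃ c K t0 : ℝ, 0 < c ∧ 0 < K ∧ 0 < t0 ∧ ∀ t, t0 ≤ t → ∀ Φ : S → ℝ, D.Psh Φ →
      (∀ x ∈ A, ∀ ξ, t * dq D s x ξ + K * dq D b x ξ ≤ D.levi Φ x ξ) →
      ∀ f0 : S → ℂ, HolOn D T f0 → (∀ x ∈ A, f0 x ≠ 0) →
      ∫⁻ x in A, ENNReal.ofReal (‖f0 x‖ ^ 2 * Real.exp (-Φ x)) ∂D.μ < ⊤ →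
      ∃ (m : ℕ) (F : Fin m → S → ℂ), c * t ^ Fintype.card n ≤ m ∧ LinearIndependent ℂ F ∧
        ∀ i, D.Hol (F i) ∧ ∫⁻ x, ENNReal.ofReal (‖F i x‖ ^ 2 * Real.exp (-Φ x)) ∂D.μ < ⊤ := by
  classical
  have mA : ∀ x, x ∈ A ↔ x ∈ T ∧ ∑ i, ‖s i x - s i x0‖ ^ 2 + ∑ k, ‖b k x - b k x0‖ ^ 2 ≤ ρ :=
    fun x => by rw [hA]; rfl
  have hW : {x | x ∈ T ∧ ∑ i, ‖s i x - s i x0‖ ^ 2 + ∑ k, ‖b k x - b k x0‖ ^ 2 < ρ / 4} ∈ 𝓝 x0 := by
    have c1 := nq_contAt (ζ := fun i x => s i x - s i x0) (fun i => (hs i).sub (holOn_const _)) hx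
    have c2 := nq_contAt (ζ := fun k x => b k x - b k x0) (fun k => (hb k).sub (holOn_const _)) hx
    exact inter_mem (hT.mem_nhds hx) ((c1.add c2).eventually_lt_const (by simp [nq, hρ]))
  obtain ⟨r, r0, hr⟩ := open_at hT hs hx hon hW
  obtain ⟨R, hR⟩ : ∃ R : ℝ, R = C0 * (Fintype.card ι + (1 : ℕ)) := ⟨_, rfl⟩
  have R0 : 0 < R := by rw [hR]; have := C0_pos; positivity
  refine ⟨(r ^ 2 / (36 * R)) ^ Fintype.card n, R * (8 / ρ), R * (8 / ρ), by positivity,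
    by positivity, by positivity, fun t ht Φ hΦ hl f0 hf h0 hi => ?_⟩
  have t0 : 0 < t := lt_of_lt_of_le (by positivity) ht
  obtain ⟨α, α0, hα⟩ : ∃ α : ℝ, 0 < α ∧ α ^ 2 = t / R :=
    ⟨√(t / R), by positivity, Real.sq_sqrt (by positivity)⟩
  obtain ⟨β, β0, hβ⟩ : ∃ β : ℝ, 0 < β ∧ β ^ 2 = 8 / ρ :=
    ⟨√(8 / ρ), by positivity, Real.sq_sqrt (by positivity)⟩
  have αβ : 8 / ρ ≤ α ^ 2 := by rw [hα, le_div_iff₀ R0]; linarith
  obtain ⟨p, hp⟩ : ∃ p : ℕ, p = ⌊r * α / 6⌋₊ := ⟨_, rfl⟩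
  have p1 : (p : ℝ) ≤ r * α / 6 := by rw [hp]; exact Nat.floor_le (by positivity)
  have p2 : r * α / 6 ≤ p + 1 := by rw [hp]; exact (Nat.lt_floor_add_one _).le
  have nα : ‖(α : ℂ)‖ = α := by rw [norm_real, Real.norm_of_nonneg α0.le]
  have nβ : ‖(β : ℂ)‖ = β := by rw [norm_real, Real.norm_of_nonneg β0.le]
  have grid : ∀ a : n → Fin (p + 1) × Fin (p + 1), ∃ y ∈ {x | x ∈ T ∧
      ∑ i, ‖s i x - s i x0‖ ^ 2 + ∑ k, ‖b k x - b k x0‖ ^ 2 < ρ / 4},
      ∀ i, s i y = s i x0 + 3 / α * ((((a i).1 : ℕ) : ℂ) + (((a i).2 : ℕ) : ℂ) * I) := fun a => by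
    refine hr _ ((pi_norm_le_iff_of_nonneg r0.le).2 fun i => ?_)
    have b1 : (((a i).1 : ℕ) : ℝ) ≤ p := by exact_mod_cast Nat.lt_succ_iff.1 (a i).1.2
    have b2 : (((a i).2 : ℕ) : ℝ) ≤ p := by exact_mod_cast Nat.lt_succ_iff.1 (a i).2.2
    have b3 : ‖(((a i).1 : ℕ) : ℂ) + (((a i).2 : ℕ) : ℂ) * I‖ ≤ r * α / 3 := by
      refine (norm_add_le _ _).trans ?_
      rw [norm_mul, norm_I, mul_one, norm_natCast, norm_natCast]
      linarith
    rw [norm_mul, norm_div, nα]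
    refine (mul_le_mul_of_nonneg_left b3 (by positivity)).trans_eq ?_
    simp only [Complex.norm_ofNat]
    field_simp
  choose y hy hv using grid
  obtain ⟨ζ, hζ⟩ : ∃ ζ : (n → Fin (p + 1) × Fin (p + 1)) → n ⊕ κ → S → ℂ, ζ = fun a =>
    Sum.elim (fun i x => α * (s i x - s i (y a))) fun k x => β * (b k x - b k (y a)) := ⟨_, rfl⟩
  have ζh : ∀ a k, HolOn D T (ζ a k) := fun a k => by
    rw [hζ]
    rcases k with i | k
    · exact (holOn_const _).mul ((hs i).sub (holOn_const _))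
    · exact (holOn_const _).mul ((hb k).sub (holOn_const _))
  have ζn : ∀ a x, nq (ζ a) x =
      α ^ 2 * ∑ i, ‖s i x - s i (y a)‖ ^ 2 + β ^ 2 * ∑ k, ‖b k x - b k (y a)‖ ^ 2 := fun a x => by
    simp only [hζ, nq, Fintype.sum_sum_type, Sum.elim_inl, Sum.elim_inr, norm_mul, mul_pow, nα, nβ,
      Finset.mul_sum]
  have ζd : ∀ a, ∀ x ∈ T, ∀ ξ, dq D (ζ a) x ξ = α ^ 2 * dq D s x ξ + β ^ 2 * dq D b x ξ :=
    fun a x hx ξ => by
      rw [← nα, ← nβ, ← dq_affine hs hx _ (fun i => s i (y a)),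
        ← dq_affine hb hx _ (fun k => b k (y a))]
      simp only [hζ, dq, Fintype.sum_sum_type, Sum.elim_inl, Sum.elim_inr]
  have sub : ∀ a, ∀ x ∈ T, nq (ζ a) x ≤ 1 → x ∈ A := fun a x hx h => by
    refine (mA x).2 ⟨hx, ?_⟩
    rw [ζn, hβ] at h
    have b1 := sum_sq_tri (fun i => s i x) (fun i => s i (y a)) fun i => s i x0
    have b2 := sum_sq_tri (fun k => b k x) (fun k => b k (y a)) fun k => b k x0
    have b3 := (hy a).2
    have b4 : 0 ≤ ∑ i, ‖s i x - s i (y a)‖ ^ 2 := by positivity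
    have b5 : 8 / ρ * (∑ i, ‖s i x - s i (y a)‖ ^ 2 + ∑ k, ‖b k x - b k (y a)‖ ^ 2) ≤ 1 := by
      nlinarith [mul_le_mul_of_nonneg_right αβ b4]
    rw [div_mul_eq_mul_div, div_le_one hρ] at b5
    linarith
  have cl : ∀ a, IsClosed {x | x ∈ T ∧ nq (ζ a) x ≤ 1} := fun a => by
    have : {x | x ∈ T ∧ nq (ζ a) x ≤ 1} = A ∩ nq (ζ a) ⁻¹' Iic 1 :=
      Set.ext fun x => ⟨fun h => ⟨sub a x h.1 h.2, h.2⟩, fun h => ⟨((mA x).1 h.1).1, h.2⟩⟩
    rw [this]
    exact ContinuousOn.preimage_isClosed_of_isClosed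
      (fun x hx => (nq_contAt (ζh a) ((mA x).1 hx).1).continuousWithinAt) hc isClosed_Iic
  have near : ∀ a x i, nq (ζ a) x ≤ 1 → α * ‖s i x - s i (y a)‖ ≤ 1 := fun a x i h => by
    have b1 : ‖ζ a (Sum.inl i) x‖ ^ 2 ≤ nq (ζ a) x :=
      Finset.single_le_sum (f := fun k => ‖ζ a k x‖ ^ 2) (fun _ _ => sq_nonneg _)
        (Finset.mem_univ _)
    have b2 := (sq_le_one_iff₀ (norm_nonneg _)).1 (b1.trans h)
    simpa only [hζ, Sum.elim_inl, norm_mul, nα] using b2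
  have dis : ∀ a a' x, x ∈ T → nq (ζ a) x ≤ 1 → x ∈ T → nq (ζ a') x ≤ 1 → a = a' :=
    fun a a' x _ h1 _ h2 => funext fun i => by
      have b1 := near a x i h1
      have b2 := near a' x i h2
      have b3 := norm_sub_le_norm_sub_add_norm_sub (s i (y a)) (s i x) (s i (y a'))
      rw [norm_sub_rev _ (s i x), hv a i, hv a' i, add_sub_add_left_eq_sub, ← mul_sub, norm_mul,
        norm_div, nα, ← hv a i, ← hv a' i] at b3
      simp only [Complex.norm_ofNat] at b3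
      have b4 := mul_le_mul_of_nonneg_left b3 α0.le
      rw [← mul_assoc, mul_div_cancel₀ _ α0.ne'] at b4
      obtain ⟨e1, e2⟩ := gauss_sep (a := (a i).1) (b := (a i).2) (c := (a' i).1) (d := (a' i).2)
        (by linarith)
      exact Prod.ext (Fin.ext e1) (Fin.ext e2)
  have main : ∀ a, ∃ G : S → ℂ, D.Hol G ∧
      ∫⁻ x, ENNReal.ofReal (‖G x‖ ^ 2 * Real.exp (-Φ x)) ∂D.μ < ⊤ ∧
      ∀ j, G (y j) = if j = a then f0 (y j) else 0 := fun a => by
    obtain ⟨G, h1, h2, h3⟩ := interp_jet D he (T := fun _ => T) (fun _ => hT) ζh cl dis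
      (f := fun j x => if j = a then f0 x else 0) (fun j => by
        split_ifs
        exacts [hf, holOn_const _]) (n := 1) le_rfl hΦ (fun j x hx h ξ => by
        refine le_trans (le_of_eq ?_) (hl x (sub j x hx h) ξ)
        rw [← hR, ζd j x hx, hα, hβ]
        field_simp) (fun j => by
        split_ifs
        · exact (lintegral_mono_set fun x hx => sub j x hx.1 hx.2).trans_lt hi
        · simp)
    refine ⟨G, h1, h2, fun j => (h3 j _ (hy j).1 fun k => ?_).1⟩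
    rw [hζ]
    rcases k with i | k <;> simp
  choose G G1 G2 G3 using main
  have li : LinearIndependent ℂ G := Fintype.linearIndependent_iff.2 fun g hg j => by
    have b1 := congrFun hg (y j)
    simp only [Finset.sum_apply, Pi.smul_apply, G3, smul_eq_mul, mul_ite, mul_zero,
      Finset.sum_ite_eq, Finset.mem_univ, if_true, Pi.zero_apply] at b1
    refine (mul_eq_zero.1 b1).resolve_right (h0 _ ((mA _).2 ⟨(hy j).1, ?_⟩))
    linarith [(hy j).2]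
  refine ⟨_, G ∘ (Fintype.equivFin _).symm, ?_, li.comp _ (Equiv.injective _),
    fun i => ⟨G1 _, G2 _⟩⟩
  rw [Fintype.card_fun, Fintype.card_prod, Fintype.card_fin, ← mul_pow]
  push_cast
  refine pow_le_pow_left₀ (by positivity) ?_ _
  refine le_trans (le_of_eq ?_) (mul_self_le_mul_self (by positivity) p2)
  have : t = R * α ^ 2 := by rw [hα]; field_simp
  rw [this]
  field_simp
  norm_num

end Pool.Agent.Lib.MP_5c318e_ag.L
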