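import Pool.Agent.Lib.MP_5c318e_ag.RD.RMeas
import Pool.Agent.Lib.MP_9ff3e7_ag.F.CauchyEst

/-! Holomorphic maps on open subsets of a Riemann domain: the vocabulary of the interpolation
theorem. -/

set_option autoImplicit false

namespace Pool.Agent.Lib.MP_5c318e_ag.L

noncomputable section

variable {ι : Type} [Fintype ι] {S : Type} [TopologicalSpace S] [MeasurableSpace S]

/-- holomorphic at every point of `T` -/
def HolOn (D : RD ι S) (T : Set S) (f : S → ℂ) : Prop :=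
  ∀ x ∈ T, DifferentiableAt ℂ (fun z => f (D.sec x z)) (D.π x)

/-- `|ζ x|²` -/
def nq {κ : Type} [Fintype κ] (ζ : κ → S → ℂ) (x : S) : ℝ := ∑ k, ‖ζ k x‖ ^ 2

/-- `|dζ (x) ξ|²` -/
def dq (D : RD ι S) {κ : Type} [Fintype κ] (ζ : κ → S → ℂ) (x : S) (ξ : ι → ℂ) : ℝ :=
  ∑ k, ‖fderiv ℂ (fun z => ζ k (D.sec x z)) (D.π x) ξ‖ ^ 2

end

end Pool.Agent.Lib.MP_5c318e_ag.L
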