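import Pool.Agent.Lib.MP_5c318e_ag.L.LDefs

/-! Calculus for `HolOn`, and the order of vanishing forced by a non integrable pole. -/

set_option autoImplicit false
set_option linter.unusedSectionVars false

namespace Pool.Agent.Lib.MP_5c318e_ag.L

open MeasureTheory Set Filter Topology Asymptotics Metric Complex
open scoped ComplexConjugate
open Pool.Agent.Lib.MP_9ff3e7_ag

variable {ι : Type} [Fintype ι] {S : Type} [TopologicalSpace S] [MeasurableSpace S]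
  {D : RD ι S} {T : Set S}

theorem HolOn.at {f : S → ℂ} (hf : HolOn D T f) {x : S} {z : ι → ℂ} (hz : z ∈ (D.ch x).target)
    (hT : D.sec x z ∈ T) : DifferentiableAt ℂ (fun w => f (D.sec x w)) z := by
  have h := hf _ hT
  rw [RD.π_sec hz] at h
  exact h.congr_of_eventuallyEq (RD.germ_f f hz)

theorem HolOn.ana {f : S → ℂ} (hf : HolOn D T f) (hT : IsOpen T) {x : S} (hx : x ∈ T) :
    AnalyticAt ℂ (fun w => f (D.sec x w)) (D.π x) := by
  have h : ∀ᶠ z in 𝓝 (D.π x), DifferentiableAt ℂ (fun w => f (D.sec x w)) z := by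
    filter_upwards [RD.tgt_nhds (D.mem_tgt x), D.tendsto_sec x (hT.mem_nhds hx)] with z h1 h2
    exact hf.at h1 h2
  obtain ⟨U, h1, h2, h3⟩ := _root_.eventually_nhds_iff.1 h
  exact F.osgood h2 (fun z hz => (h1 z hz).differentiableWithinAt) _ h3

theorem contAt_of_sec {X : Type} [TopologicalSpace X] {f : S → X} {x : S}
    (h : ContinuousAt (fun z => f (D.sec x z)) (D.π x)) : ContinuousAt f x := by
  have h1 : ContinuousAt (fun y => f (D.sec x (D.π y))) x :=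
    ContinuousAt.comp (g := fun z => f (D.sec x z)) h D.cont_π.continuousAt
  refine h1.congr ?_
  filter_upwards [(D.ch x).open_source.mem_nhds (D.mem_src x)] with y hy
  rw [RD.sec_π hy]

theorem HolOn.contAt {f : S → ℂ} (hf : HolOn D T f) {x : S} (hx : x ∈ T) : ContinuousAt f x :=
  contAt_of_sec (hf x hx).continuousAt

theorem HolOn.contOn {f : S → ℂ} (hf : HolOn D T f) : ContinuousOn f T :=
  fun _ hx => (hf.contAt hx).continuousWithinAt

theorem HolOn.mono {f : S → ℂ} (hf : HolOn D T f) {T' : Set S} (h : T' ⊆ T) : HolOn D T' f :=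
  fun x hx => hf x (h hx)

theorem holOn_of_hol {f : S → ℂ} (hf : D.Hol f) : HolOn D T f := fun x _ => hf x

theorem holOn_const (c : ℂ) : HolOn D T fun _ => c := fun _ _ => differentiableAt_const c

theorem HolOn.add {f g : S → ℂ} (hf : HolOn D T f) (hg : HolOn D T g) :
    HolOn D T fun x => f x + g x := fun x hx => (hf x hx).add (hg x hx)

theorem HolOn.sub {f g : S → ℂ} (hf : HolOn D T f) (hg : HolOn D T g) :
    HolOn D T fun x => f x - g x := fun x hx => (hf x hx).sub (hg x hx)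

theorem HolOn.mul {f g : S → ℂ} (hf : HolOn D T f) (hg : HolOn D T g) :
    HolOn D T fun x => f x * g x := fun x hx => (hf x hx).mul (hg x hx)

variable {κ : Type} [Fintype κ] {ζ : κ → S → ℂ}

theorem nq_nonneg (ζ : κ → S → ℂ) (x : S) : 0 ≤ nq ζ x :=
  Finset.sum_nonneg fun _ _ => sq_nonneg _

theorem dq_nonneg (D : RD ι S) (ζ : κ → S → ℂ) (x : S) (ξ : ι → ℂ) : 0 ≤ dq D ζ x ξ :=
  Finset.sum_nonneg fun _ _ => sq_nonneg _

theorem nq_contAt (hζ : ∀ k, HolOn D T (ζ k)) {x : S} (hx : x ∈ T) : ContinuousAt (nq ζ) x :=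
  tendsto_finsetSum _ fun k _ => ((hζ k).contAt hx).norm.pow 2

theorem nq_smAt (hζ : ∀ k, HolOn D T (ζ k)) (hT : IsOpen T) {x : S} (hx : x ∈ T)
    {m : WithTop ℕ∞} : ContDiffAt ℝ m (fun z => nq ζ (D.sec x z)) (D.π x) :=
  F.contDiffAt_sum_normSq _ fun k _ => (hζ k).ana hT hx

theorem levi_nq (hζ : ∀ k, HolOn D T (ζ k)) (hT : IsOpen T) {x : S} (hx : x ∈ T) (ξ : ι → ℂ) :
    F.levi (fun z => nq ζ (D.sec x z)) (D.π x) ξ = dq D ζ x ξ :=
  F.levi_sum_normSq _ (fun k _ => (hζ k).ana hT hx) ξ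

theorem dbar_nq (hζ : ∀ k, HolOn D T (ζ k)) {x : S} (hx : x ∈ T) (ξ : ι → ℂ) :
    ‖F.dbar (fun z => (nq ζ (D.sec x z) : ℂ)) (D.π x) ξ‖ ^ 2 ≤ nq ζ x * dq D ζ x ξ := by
  have h := F.dbar_sum_normSq Finset.univ (f := fun k z => ζ k (D.sec x z))
    (fun k _ => hζ k x hx) ξ
  simp only [RD.sec_self] at h
  unfold nq dq
  rw [h]
  exact F.norm_sum_mul_conj_sq_le _ _ _

/-- affine change of the target -/
theorem dq_affine (hζ : ∀ k, HolOn D T (ζ k)) {x : S} (hx : x ∈ T) (c : ℂ) (a : κ → ℂ)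
    (ξ : ι → ℂ) : dq D (fun k y => c * (ζ k y - a k)) x ξ = ‖c‖ ^ 2 * dq D ζ x ξ := by
  unfold dq
  rw [Finset.mul_sum]
  refine Finset.sum_congr rfl fun k _ => ?_
  rw [(((hζ k x hx).hasFDerivAt.sub_const (a k)).const_mul c).fderiv,
    smul_apply, norm_smul, mul_pow]

theorem nq_bound (hζ : ∀ k, HolOn D T (ζ k)) {y : S} (hy : y ∈ T) (h0 : ∀ k, ζ k y = 0) :
    ∃ L : ℝ, 0 < L ∧ ∀ᶠ z in 𝓝 (D.π y), nq ζ (D.sec y z) ≤ L * ‖z - D.π y‖ ^ 2 := by
  have h : (fun z => nq ζ (D.sec y z)) =O[𝓝 (D.π y)] fun z => ‖z - D.π y‖ ^ 2 := by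
    have h2 : ∀ k ∈ Finset.univ, (fun z => ‖ζ k (D.sec y z)‖ ^ 2) =O[𝓝 (D.π y)]
        fun z => ‖z - D.π y‖ ^ 2 := fun k _ => by
      have h1 := (hζ k y hy).isBigO_sub
      simp only [RD.sec_self, h0, sub_zero] at h1
      exact h1.norm_norm.pow 2
    exact IsBigO.fun_sum h2
  obtain ⟨L, L0, hL⟩ := h.exists_pos
  refine ⟨L, L0, hL.bound.mono fun z hz => ?_⟩
  rwa [Real.norm_of_nonneg (nq_nonneg _ _), Real.norm_of_nonneg (sq_nonneg _)] at hz

variable [BorelSpace S]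

/-- the part of a chart over an open set -/
theorem restrict_over (D : RD ι S) (y : S) {B : Set (ι → ℂ)} (hB : IsOpen B)
    (h : B ⊆ (D.ch y).target) :
    D.μ.restrict ((D.ch y).source ∩ D.π ⁻¹' B) = Measure.map (D.sec y) (volume.restrict B) := by
  have ho : IsOpen ((D.ch y).source ∩ D.π ⁻¹' B) :=
    (D.ch y).open_source.inter (hB.preimage D.cont_π)
  have hm : AEMeasurable (D.sec y) (volume.restrict B) :=
    ((D.sec_contOn y).mono h).aemeasurable hB.measurableSet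
  ext A hA
  rw [Measure.restrict_apply hA, Measure.map_apply_of_aemeasurable hm hA,
    Measure.restrict_apply' hB.measurableSet, D.vol _ (hA.inter ho.measurableSet)
      ((D.injOn_src y).mono (inter_subset_right.trans inter_subset_left))]
  congr 1
  ext z
  constructor
  · rintro ⟨x, ⟨h1, h2, h3⟩, rfl⟩
    exact ⟨by rw [mem_preimage, RD.sec_π h2]; exact h1, h3⟩
  · rintro ⟨h1, h2⟩
    exact ⟨D.sec y z, ⟨h1, RD.sec_mem (h h2), by rw [mem_preimage, RD.π_sec (h h2)]; exact h2⟩,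
      RD.π_sec (h h2)⟩

theorem lint_over (D : RD ι S) (y : S) {B : Set (ι → ℂ)} (hB : IsOpen B)
    (h : B ⊆ (D.ch y).target) {g : S → ENNReal}
    (hg : ContinuousOn g ((D.ch y).source ∩ D.π ⁻¹' B)) :
    ∫⁻ z in B, g (D.sec y z) = ∫⁻ x in (D.ch y).source ∩ D.π ⁻¹' B, g x ∂D.μ := by
  have ho : IsOpen ((D.ch y).source ∩ D.π ⁻¹' B) :=
    (D.ch y).open_source.inter (hB.preimage D.cont_π)
  have h1 : AEMeasurable g (D.μ.restrict ((D.ch y).source ∩ D.π ⁻¹' B)) :=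
    hg.aemeasurable ho.measurableSet
  rw [restrict_over D y hB h] at h1 ⊢
  exact (lintegral_map' h1 (((D.sec_contOn y).mono h).aemeasurable hB.measurableSet)).symm

/-- a pole of order `d + n` forces vanishing to order `n` -/
theorem order (D : RD ι S) {T : Set S} (hT : IsOpen T) {κ : Type} [Fintype κ] {ζ : κ → S → ℂ}
    (hζ : ∀ k, HolOn D T (ζ k)) {G : S → ℂ} (hG : HolOn D T G) {y : S} (hy : y ∈ T)
    (h0 : ∀ k, ζ k y = 0) {ω : S → ℝ} {M : ℝ} (hω : ∀ᶠ x in 𝓝 y, ω x ≤ M) {U : Set S}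
    (hU : U ∈ 𝓝 y) {n : ℕ}
    (hi : ∫⁻ x in U, ENNReal.ofReal (‖G x‖ ^ 2) *
      (ENNReal.ofReal (ω x * nq ζ x ^ (Fintype.card ι + n)))⁻¹ ∂D.μ < ⊤) :
    (fun z => G (D.sec y z)) =O[𝓝 (D.π y)] fun z => ‖z - D.π y‖ ^ n := by
  obtain ⟨L, L0, hL⟩ := nq_bound hζ hy h0
  obtain ⟨r1, r10, hr1⟩ := D.exists_rad y (inter_mem (inter_mem hU hω) (hT.mem_nhds hy))
  obtain ⟨r2, r20, hr2⟩ := nhds_basis_closedBall.mem_iff.1 hL
  obtain ⟨d, hd⟩ : ∃ d, d = Fintype.card ι := ⟨_, rfl⟩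
  rw [← hd] at hi
  set I := (∫⁻ x in U, ENNReal.ofReal (‖G x‖ ^ 2) *
    (ENNReal.ofReal (ω x * nq ζ x ^ (d + n)))⁻¹ ∂D.μ).toReal with hI
  have I0 : 0 ≤ I := ENNReal.toReal_nonneg
  have M0 : 0 < max M 1 := by positivity
  set K := max M 1 * (4 * L) ^ (d + n) * I / Real.pi ^ d with hK
  have key : ∀ z ρ, 0 < ρ → ‖z - D.π y‖ ≤ ρ → 2 * ρ ≤ min r1 r2 →
      ‖G (D.sec y z)‖ ^ 2 ≤ K * (ρ ^ n) ^ 2 := fun z ρ ρ0 hz hρ => by
    have sub : ∀ w ∈ ball z ρ, ‖w - D.π y‖ ≤ 2 * ρ := fun w hw => by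
      have := norm_sub_le_norm_sub_add_norm_sub w z (D.π y)
      rw [mem_ball_iff_norm] at hw
      linarith
    have s1 : ∀ w ∈ ball z ρ, w ∈ closedBall (D.π y) r1 := fun w hw =>
      mem_closedBall_iff_norm.2 ((sub w hw).trans (hρ.trans (min_le_left _ _)))
    have s2 : ∀ w ∈ ball z ρ, w ∈ closedBall (D.π y) r2 := fun w hw =>
      mem_closedBall_iff_norm.2 ((sub w hw).trans (hρ.trans (min_le_right _ _)))
    have dif : DifferentiableOn ℂ (fun w => G (D.sec y w)) (ball z ρ) := fun w hw =>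
      (hG.at (hr1 (s1 w hw)).1 (hr1 (s1 w hw)).2.2).differentiableWithinAt
    have up : ∀ x ∈ (D.ch y).source ∩ D.π ⁻¹' ball z ρ, (x ∈ U ∧ ω x ≤ M) ∧ x ∈ T := fun x hx => by
      have := (hr1 (s1 _ hx.2)).2
      rwa [mem_preimage, RD.sec_π hx.1] at this
    have ho : IsOpen ((D.ch y).source ∩ D.π ⁻¹' ball z ρ) :=
      (D.ch y).open_source.inter (isOpen_ball.preimage D.cont_π)
    have c0 : 0 < max M 1 * (4 * L * ρ ^ 2) ^ (d + n) := by positivity
    have h1 := F.submean_pi ρ0 dif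
    rw [← hd, lint_over D y isOpen_ball (fun w hw => (hr1 (s1 w hw)).1)
      (g := fun x => ENNReal.ofReal (‖G x‖ ^ 2)) (ENNReal.continuous_ofReal.comp_continuousOn
        ((hG.contOn.mono fun x hx => (up x hx).2).norm.pow 2))] at h1
    have h2 : ∫⁻ x in (D.ch y).source ∩ D.π ⁻¹' ball z ρ, ENNReal.ofReal (‖G x‖ ^ 2) ∂D.μ ≤
        ENNReal.ofReal (max M 1 * (4 * L * ρ ^ 2) ^ (d + n) * I) := by
      rw [ENNReal.ofReal_mul c0.le, hI, ENNReal.ofReal_toReal hi.ne,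
        ← lintegral_const_mul' _ _ ENNReal.ofReal_ne_top]
      refine le_trans (setLIntegral_mono' ho.measurableSet fun x hx => ?_)
        (lintegral_mono_set fun x hx => (up x hx).1.1)
      have b1 : nq ζ x ≤ 4 * L * ρ ^ 2 := by
        have := hr2 (s2 _ hx.2)
        rw [mem_ofPred_eq, RD.sec_π hx.1] at this
        have h3 : ‖D.π x - D.π y‖ ^ 2 ≤ (2 * ρ) ^ 2 :=
          pow_le_pow_left₀ (norm_nonneg _) (sub _ hx.2) 2
        nlinarith
      have b2 : ω x * nq ζ x ^ (d + n) ≤ max M 1 * (4 * L * ρ ^ 2) ^ (d + n) :=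
        mul_le_mul ((up x hx).1.2.trans (le_max_left _ _))
          (pow_le_pow_left₀ (nq_nonneg _ _) b1 _) (pow_nonneg (nq_nonneg _ _) _) M0.le
      rw [mul_left_comm]
      refine le_mul_of_one_le_right' ?_
      rw [← ENNReal.mul_inv_cancel (ENNReal.ofReal_pos.2 c0).ne' ENNReal.ofReal_ne_top]
      exact mul_le_mul_right (ENNReal.inv_le_inv.2 (ENNReal.ofReal_le_ofReal b2)) _
    have h3 := (ENNReal.ofReal_le_ofReal_iff (by positivity)).1 (h1.trans h2)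
    have p0 : 0 < (Real.pi * ρ ^ 2) ^ d := by positivity
    refine le_of_mul_le_mul_right (h3.trans_eq ?_) p0
    rw [hK, mul_pow (4 * L), mul_pow Real.pi, pow_add (ρ ^ 2), ← pow_mul ρ n 2, mul_comm n 2,
      pow_mul ρ 2 n]
    field_simp
  have K0 : 0 ≤ K := by positivity
  refine IsBigO.of_bound √K ?_
  filter_upwards [ball_mem_nhds (D.π y) (half_pos (lt_min r10 r20))] with z hz
  rw [mem_ball_iff_norm] at hz
  have h1 : ‖G (D.sec y z)‖ ^ 2 ≤ K * (‖z - D.π y‖ ^ n) ^ 2 := by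
    have t1 : Tendsto (fun ρ : ℝ => K * (ρ ^ n) ^ 2) (𝓝[>] ‖z - D.π y‖)
        (𝓝 (K * (‖z - D.π y‖ ^ n) ^ 2)) :=
      (Continuous.tendsto (by fun_prop) _).mono_left nhdsWithin_le_nhds
    refine ge_of_tendsto t1 ?_
    filter_upwards [Ioo_mem_nhdsGT hz] with ρ hρ
    exact key z ρ ((norm_nonneg _).trans_lt hρ.1) hρ.1.le (by linarith [hρ.2])
  rw [Real.norm_of_nonneg (by positivity : 0 ≤ ‖z - D.π y‖ ^ n)]
  refine le_of_sq_le_sq ?_ (by positivity)
  rwa [mul_pow, Real.sq_sqrt K0]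

theorem zero_of_order {G : (ι → ℂ) → ℂ} {p : ι → ℂ} {n : ℕ} (hn : 1 ≤ n)
    (h : G =O[𝓝 p] fun z => ‖z - p‖ ^ n) : G p = 0 := by
  obtain ⟨c, hc⟩ := h.bound
  have := hc.self_of_nhds
  rwa [sub_self, norm_zero, zero_pow (by omega), norm_zero, mul_zero, norm_le_zero_iff] at this

theorem fderiv_of_order {G : (ι → ℂ) → ℂ} {p : ι → ℂ} {n : ℕ} (hn : 2 ≤ n)
    (h : G =O[𝓝 p] fun z => ‖z - p‖ ^ n) : HasFDerivAt G (0 : (ι → ℂ) →L[ℂ] ℂ) p := by
  rw [hasFDerivAt_iff_isLittleO]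
  simp only [zero_of_order (by omega) h, sub_zero, zero_apply]
  exact h.trans_isLittleO (isLittleO_pow_sub_sub p (by omega))

end Pool.Agent.Lib.MP_5c318e_ag.L
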